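import Pool.Agent.Y17.N.Defs3
import Pool.Agent.Z179.TREE

/-!
# RHQ: the parity of the class number (job 3383, project Z17N)

The half-range sums of the quadratic characters of conductor `q m_S`, `S ⊆ P`, satisfy a relation
obtained from the sum of `(u/q) ∏ (1 + (u/p))` over the half range.
-/

set_option autoImplicit false

namespace Pool.Agent.Y434.N

open Finset
open Pool.Agent.Z700 (vec pr Yd lres)
open Pool.Agent.Y17.N (Sp Qr eQ S_HALF S_LEAF S_RHQ)

/-! ### sums of periodic functions -/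

theorem sum_per (f : ℕ → ℤ) (N : ℕ) (hf : ∀ u, f (N + u) = f u) (t r : ℕ) :
    ∑ u ∈ range (t * N + r), f u = t * ∑ u ∈ range N, f u + ∑ u ∈ range r, f u := by
  induction t with
  | zero => simp
  | succ t ih =>
    have h1 : (t + 1) * N + r = N + (t * N + r) := by ring
    rw [h1, Finset.sum_range_add, Finset.sum_congr rfl (fun u _ => hf u), ih]
    push_cast
    ring

theorem sum_refl (f : ℕ → ℤ) (N M : ℕ) (hN : N = 2 * M + 1) (h0 : f 0 = 0) (e : ℤ)
    (hf : ∀ u, 0 < u → u < N → f (N - u) = e * f u) :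
    ∑ u ∈ range N, f u = (1 + e) * ∑ u ∈ range (M + 1), f u := by
  have h1 : N = (M + 1) + M := by omega
  rw [h1, Finset.sum_range_add, ← Finset.sum_range_reflect (fun u => f (M + 1 + u)) M]
  have h2 : ∀ u ∈ range M, f (M + 1 + (M - 1 - u)) = e * f (u + 1) := by
    intro u hu
    rw [mem_range] at hu
    rw [← hf (u + 1) (by omega) (by omega)]
    congr 1
    omega
  rw [Finset.sum_congr rfl h2, ← Finset.mul_sum, Finset.sum_range_succ' f M, h0]
  ring

theorem sum_crt (f g : ℕ → ℤ) (a b : ℕ) (ha : 0 < a) (hb : 0 < b) (hab : Nat.Coprime a b)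
    (hf : ∀ u, f (u % a) = f u) (hg : ∀ u, g (u % b) = g u) :
    ∑ u ∈ range (a * b), f u * g u = (∑ u ∈ range a, f u) * ∑ u ∈ range b, g u := by
  rw [Finset.sum_mul_sum, ← Finset.sum_product']
  refine Finset.sum_bij (fun u _ => (u % a, u % b)) ?_ ?_ ?_ ?_
  · intro u _
    simp only [mem_product, mem_range]
    exact ⟨Nat.mod_lt _ ha, Nat.mod_lt _ hb⟩
  · intro u hu v hv h
    rw [Prod.mk.injEq] at h
    have h1 : u ≡ v [MOD a * b] := (Nat.modEq_and_modEq_iff_modEq_mul hab).1 ⟨h.1, h.2⟩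
    rw [mem_range] at hu hv
    exact Nat.ModEq.eq_of_lt_of_lt h1 hu hv
  · rintro ⟨i, j⟩ hij
    simp only [mem_product, mem_range] at hij
    refine ⟨(Nat.chineseRemainder hab i j : ℕ), ?_, ?_⟩
    · rw [mem_range]
      exact Nat.chineseRemainder_lt_mul hab i j ha.ne' hb.ne'
    · have h1 := (Nat.chineseRemainder hab i j).2
      rw [Prod.mk.injEq]
      exact ⟨Eq.trans h1.1 (Nat.mod_eq_of_lt hij.1), Eq.trans h1.2 (Nat.mod_eq_of_lt hij.2)⟩
  · intro u _
    simp only []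
    rw [hf, hg]

/-! ### Jacobi symbols -/

theorem pr_insert {s : ℕ} {S : Finset ℕ} (hs : s ∉ S) : pr (insert s S) = s * pr S := by
  unfold pr
  rw [Finset.prod_insert hs]

theorem pr_empty : pr ∅ = 1 := by
  unfold pr
  rw [Finset.prod_empty]

theorem pr_ne {S : Finset ℕ} (hS : ∀ p ∈ S, p ≠ 0) : pr S ≠ 0 := by
  unfold pr
  rw [Finset.prod_ne_zero_iff]
  exact hS

theorem dvd_pr {p : ℕ} {P : Finset ℕ} (hp : p ∈ P) : p ∣ pr P :=
  Finset.dvd_prod_of_mem (fun p => p) hp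

theorem jac_prod (a : ℤ) (q : ℕ) (hq : q ≠ 0) (S : Finset ℕ) (hS : ∀ p ∈ S, p ≠ 0) :
    jacobiSym a (q * pr S) = jacobiSym a q * ∏ p ∈ S, jacobiSym a p := by
  induction S using Finset.induction_on with
  | empty => simp [pr_empty]
  | insert s S hs ih =>
    have h1 := ih (fun p hp => hS p (mem_insert_of_mem hp))
    have h2 : s ≠ 0 := hS s (mem_insert_self _ _)
    have h3 : pr S ≠ 0 := pr_ne fun p hp => hS p (mem_insert_of_mem hp)
    have h4 : q * (s * pr S) = s * (q * pr S) := by ring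
    rw [pr_insert hs, Finset.prod_insert hs, h4,
      jacobiSym.mul_right' a h2 (mul_ne_zero hq h3), h1]
    ring

theorem jac_mod (u N : ℕ) : jacobiSym ((u % N : ℕ) : ℤ) N = jacobiSym (u : ℤ) N := by
  rw [jacobiSym.mod_left (u : ℤ) N]
  push_cast
  rfl

theorem jac_add (u N : ℕ) : jacobiSym ((N + u : ℕ) : ℤ) N = jacobiSym (u : ℤ) N := by
  rw [← jac_mod (N + u) N, Nat.add_mod_left, jac_mod]

theorem jac_sub (u n N : ℕ) (hn : N ∣ n) (hu : u ≤ n) :
    jacobiSym ((n - u : ℕ) : ℤ) N = jacobiSym (-(u : ℤ)) N := by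
  rw [jacobiSym.mod_left, jacobiSym.mod_left (-(u : ℤ)) N]
  congr 1
  obtain ⟨k, rfl⟩ := hn
  push_cast [Nat.cast_sub hu]
  rw [sub_eq_add_neg, add_comm, Int.add_mul_emod_self_left]

theorem jac_neg1 (u : ℤ) (p : ℕ) (hp : p % 4 = 1) : jacobiSym (-u) p = jacobiSym u p := by
  rw [jacobiSym.neg u (Nat.odd_iff.2 (by omega)), ZMod.χ₄_nat_one_mod_four hp, one_mul]

theorem jac_neg3 (u : ℤ) (p : ℕ) (hp : p % 4 = 3) : jacobiSym (-u) p = -jacobiSym u p := by
  rw [jacobiSym.neg u (Nat.odd_iff.2 (by omega)), ZMod.χ₄_nat_three_mod_four hp, neg_one_mul]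

theorem jac_zero (N : ℕ) (hN : 1 < N) : jacobiSym ((0 : ℕ) : ℤ) N = 0 := by
  rw [Nat.cast_zero]
  exact jacobiSym.zero_left hN

/-- the square of the symbol at a prime -/
theorem jac_sq (u : ℤ) (p : ℕ) (hp : p.Prime) :
    jacobiSym u p ^ 2 = if (p : ℤ) ∣ u then 0 else 1 := by
  have : Fact p.Prime := ⟨hp⟩
  split_ifs with h
  · have h1 : jacobiSym u p = 0 := by
      rw [jacobiSym.eq_zero_iff_not_coprime]
      intro h2
      have h3 : Int.gcd (p : ℤ) u = p := by
        rw [Int.gcd_eq_natAbs_left h, Int.natAbs_natCast]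
      rw [Int.gcd_comm, h3] at h2
      exact hp.one_lt.ne' h2
    rw [h1]
    rfl
  · have h1 : Int.gcd u p = 1 := by
      rw [Int.gcd_comm]
      exact (Int.isCoprime_iff_gcd_eq_one.1 ((Nat.prime_iff_prime_int.1 hp).coprime_iff_not_dvd.2 h))
    exact jacobiSym.sq_one h1

theorem jac_pm (u : ℤ) (p : ℕ) (hp : p.Prime) (h : ¬ (p : ℤ) ∣ u) :
    jacobiSym u p = 1 ∨ jacobiSym u p = -1 := by
  have h1 := jac_sq u p hp
  rw [if_neg h] at h1
  have h2 : (jacobiSym u p - 1) * (jacobiSym u p + 1) = 0 := by linear_combination h1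
  rcases mul_eq_zero.1 h2 with h | h
  · left; linarith
  · right; linarith

/-! ### the half sums -/

/-- the half-range sum, with coprimality conditions -/
def hs (N c : ℕ) (T : Finset ℕ) : ℤ :=
  ∑ u ∈ range ((N * c + 1) / 2), jacobiSym (u : ℤ) N * ∏ p ∈ T, jacobiSym (u : ℤ) p ^ 2

/-- the half-range sum -/
def H (N : ℕ) : ℤ := ∑ u ∈ range ((N + 1) / 2), jacobiSym (u : ℤ) N

theorem full_zero (N : ℕ) (hN : N % 4 = 3) : ∑ u ∈ range N, jacobiSym (u : ℤ) N = 0 := by
  rw [sum_refl (fun u => jacobiSym (u : ℤ) N) N (N / 2) (by omega) (jac_zero N (by omega)) (-1)]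
  · ring
  · intro u h1 h2
    rw [jac_sub u N N dvd_rfl h2.le, jac_neg3 _ _ hN]
    ring

theorem hs_empty (N c : ℕ) (hN : N % 4 = 3) (hc : Odd c) : hs N c ∅ = H N := by
  obtain ⟨t, rfl⟩ := hc
  unfold hs H
  simp only [Finset.prod_empty, mul_one]
  have h1 : (N * (2 * t + 1) + 1) / 2 = t * N + (N + 1) / 2 := by
    have : N * (2 * t + 1) + 1 = 2 * (t * N) + (N + 1) := by ring
    rw [this]
    omega
  rw [h1, sum_per (fun u => jacobiSym (u : ℤ) N) N (fun u => jac_add u N) t, full_zero N hN]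
  ring

theorem hs_insert (N c : ℕ) (hN : Odd N) (p0 : ℕ) (hp0 : p0.Prime) (T : Finset ℕ)
    (hT : ∀ p ∈ T, p.Prime) (h0 : p0 ∉ T) (hc : Odd (p0 * c)) :
    hs N (p0 * c) (insert p0 T) = hs N (p0 * c) T - jacobiSym (p0 : ℤ) N * hs N c T := by
  unfold hs
  have e1 : ∀ u : ℕ, jacobiSym (u : ℤ) N * ∏ p ∈ insert p0 T, jacobiSym (u : ℤ) p ^ 2 =
      jacobiSym (u : ℤ) N * ∏ p ∈ T, jacobiSym (u : ℤ) p ^ 2 -
        if p0 ∣ u then jacobiSym (u : ℤ) N * ∏ p ∈ T, jacobiSym (u : ℤ) p ^ 2 else 0 := by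
    intro u
    rw [Finset.prod_insert h0, jac_sq _ _ hp0]
    simp only [Int.natCast_dvd_natCast]
    split_ifs <;> ring
  rw [Finset.sum_congr rfl (fun u _ => e1 u), Finset.sum_sub_distrib]
  congr 1
  rw [← Finset.sum_filter, Finset.mul_sum]
  symm
  have oc : Odd c := (Nat.odd_mul.1 hc).2
  have o1 : Odd (N * c) := hN.mul oc
  have o2 : Odd (N * (p0 * c)) := hN.mul hc
  have pp := hp0.pos
  refine Finset.sum_bij (fun v _ => p0 * v) ?_ ?_ ?_ ?_
  · intro v hv
    rw [mem_range] at hv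
    rw [mem_filter, mem_range]
    refine ⟨?_, dvd_mul_right _ _⟩
    have h1 : 2 * v < N * c := by
      obtain ⟨k, hk⟩ := o1
      rw [hk] at hv ⊢
      omega
    have h2 : p0 * (2 * v) < p0 * (N * c) := Nat.mul_lt_mul_of_pos_left h1 pp
    have h3 : 2 * (p0 * v) < N * (p0 * c) := by
      calc 2 * (p0 * v) = p0 * (2 * v) := by ring
        _ < p0 * (N * c) := h2
        _ = N * (p0 * c) := by ring
    omega
  · intro v _ w _ h
    exact Nat.eq_of_mul_eq_mul_left pp h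
  · intro u hu
    rw [mem_filter, mem_range] at hu
    obtain ⟨h1, v, rfl⟩ := hu
    refine ⟨v, ?_, rfl⟩
    rw [mem_range]
    have h3 : 2 * (p0 * v) < N * (p0 * c) := by
      obtain ⟨k, hk⟩ := o2
      rw [hk] at h1 ⊢
      omega
    have h4 : p0 * (2 * v) < p0 * (N * c) := by
      calc p0 * (2 * v) = 2 * (p0 * v) := by ring
        _ < N * (p0 * c) := h3
        _ = p0 * (N * c) := by ring
    have h5 : 2 * v < N * c := lt_of_mul_lt_mul_left h4 (Nat.zero_le _)
    omega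
  · intro v _
    push_cast
    rw [jacobiSym.mul_left, mul_assoc]
    congr 2
    refine Finset.prod_congr rfl fun p hp => ?_
    rw [jacobiSym.mul_left, mul_pow, jac_sq (p0 : ℤ) p (hT p hp), if_neg, one_mul]
    rw [Int.natCast_dvd_natCast]
    intro h
    have := (Nat.prime_dvd_prime_iff_eq (hT p hp) hp0).1 h
    exact h0 (this ▸ hp)

theorem hs_eq (N : ℕ) (hN : N % 4 = 3) (T : Finset ℕ) (hT : ∀ p ∈ T, p.Prime) :
    ∀ c : ℕ, Odd (pr T * c) → hs N (pr T * c) T = H N * ∏ p ∈ T, (1 - jacobiSym (p : ℤ) N) := by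
  induction T using Finset.induction_on with
  | empty =>
    intro c hc
    rw [hs_empty N _ hN hc, Finset.prod_empty, mul_one]
  | insert p0 T h0 ih =>
    intro c hc
    have hT' : ∀ p ∈ T, p.Prime := fun p hp => hT p (mem_insert_of_mem hp)
    have hp0 : p0.Prime := hT p0 (mem_insert_self _ _)
    rw [pr_insert h0, mul_assoc] at hc ⊢
    rw [hs_insert N _ (Nat.odd_iff.2 (by omega)) p0 hp0 T hT' h0 hc, Finset.prod_insert h0]
    have h1 : hs N (p0 * (pr T * c)) T = H N * ∏ p ∈ T, (1 - jacobiSym (p : ℤ) N) := by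
      have h2 : p0 * (pr T * c) = pr T * (p0 * c) := by ring
      rw [h2] at hc ⊢
      exact ih hT' (p0 * c) hc
    rw [h1, ih hT' c (Nat.odd_mul.1 hc).2]
    ring

/-- the relation between the half sums -/
theorem relation (q : ℕ) (hq : q ≠ 0) (P : Finset ℕ) (hP : ∀ p ∈ P, p.Prime)
    (h4 : ∀ S ⊆ P, (q * pr S) % 4 = 3) :
    ∑ S ∈ P.powerset, H (q * pr S) * ∏ p ∈ P \ S, (1 - jacobiSym (p : ℤ) (q * pr S)) =
      ∑ u ∈ range ((q * pr P + 1) / 2), jacobiSym (u : ℤ) q *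
        ∏ p ∈ P, (jacobiSym (u : ℤ) p + jacobiSym (u : ℤ) p ^ 2) := by
  have h1 : ∀ S ∈ P.powerset, H (q * pr S) * ∏ p ∈ P \ S, (1 - jacobiSym (p : ℤ) (q * pr S)) =
      ∑ u ∈ range ((q * pr P + 1) / 2), jacobiSym (u : ℤ) q *
        ((∏ p ∈ S, jacobiSym (u : ℤ) p) * ∏ p ∈ P \ S, jacobiSym (u : ℤ) p ^ 2) := by
    intro S hS
    rw [mem_powerset] at hS
    have h5 : pr P = pr S * pr (P \ S) := by
      unfold pr
      rw [mul_comm, Finset.prod_sdiff hS]
    have h6 : Odd (pr (P \ S) * 1) := by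
      have h7 := h4 P (Finset.Subset.refl _)
      rw [h5, ← mul_assoc] at h7
      have h8 : Odd (q * pr S * pr (P \ S)) := Nat.odd_iff.2 (by omega)
      rw [mul_one]
      exact (Nat.odd_mul.1 h8).2
    rw [← hs_eq (q * pr S) (h4 S hS) (P \ S) (fun p hp => hP p (mem_sdiff.1 hp).1) 1 h6]
    unfold hs
    rw [mul_one, mul_assoc, ← h5]
    refine Finset.sum_congr rfl fun u _ => ?_
    rw [jac_prod _ q hq S (fun p hp => (hP p (hS hp)).ne_zero), mul_assoc]
  rw [Finset.sum_congr rfl h1, Finset.sum_comm]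
  refine Finset.sum_congr rfl fun u _ => ?_
  rw [← Finset.mul_sum, Finset.prod_add]

/-! ### the right hand side -/

theorem sum_sq (p : ℕ) (hp : p.Prime) : ∑ u ∈ range p, jacobiSym (u : ℤ) p ^ 2 = (p : ℤ) - 1 := by
  obtain ⟨m, rfl⟩ : ∃ m, p = m + 1 := ⟨p - 1, by have := hp.pos; omega⟩
  rw [Finset.sum_range_succ', jac_zero _ hp.one_lt]
  have h1 : ∀ u ∈ range m, jacobiSym ((u + 1 : ℕ) : ℤ) (m + 1) ^ 2 = 1 := by
    intro u hu
    rw [mem_range] at hu
    rw [jac_sq _ _ hp, if_neg]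
    rw [Int.natCast_dvd_natCast]
    intro h
    have := Nat.le_of_dvd (by omega) h
    omega
  rw [Finset.sum_congr rfl h1]
  simp

theorem sum_leg (p : ℕ) (hp : p.Prime) (h2 : p ≠ 2) : ∑ u ∈ range p, jacobiSym (u : ℤ) p = 0 := by
  have : Fact p.Prime := ⟨hp⟩
  have h1 := quadraticChar_sum_zero (F := ZMod p) (by rw [ZMod.ringChar_zmod_n]; exact h2)
  rw [← h1]
  refine Finset.sum_bij' (fun (u : ℕ) _ => (u : ZMod p)) (fun a _ => a.val) ?_ ?_ ?_ ?_ ?_
  · intro u _
    exact mem_univ _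
  · intro a _
    rw [mem_range]
    exact ZMod.val_lt a
  · intro u hu
    rw [mem_range] at hu
    exact ZMod.val_cast_of_lt hu
  · intro a _
    exact ZMod.natCast_zmod_val a
  · intro u _
    rw [← jacobiSym.legendreSym.to_jacobiSym]
    unfold legendreSym
    push_cast
    rfl

theorem full_sum (q : ℕ) (hq : q.Prime) (P : Finset ℕ) (hP : ∀ p ∈ P, p.Prime ∧ p ≠ 2)
    (hqP : q ∉ P) :
    ∑ u ∈ range (q * pr P), jacobiSym (u : ℤ) q ^ 2 *
        ∏ p ∈ P, (jacobiSym (u : ℤ) p + jacobiSym (u : ℤ) p ^ 2) =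
      ((q : ℤ) - 1) * ∏ p ∈ P, ((p : ℤ) - 1) := by
  induction P using Finset.induction_on with
  | empty =>
    simp only [Finset.prod_empty, mul_one, pr_empty]
    exact sum_sq q hq
  | insert p0 P h0 ih =>
    have hp0 := hP p0 (mem_insert_self _ _)
    have hP' : ∀ p ∈ P, p.Prime ∧ p ≠ 2 := fun p hp => hP p (mem_insert_of_mem hp)
    have h1 : q * pr (insert p0 P) = (q * pr P) * p0 := by
      rw [pr_insert h0]
      ring
    have hpr : pr P ≠ 0 := pr_ne fun p hp => (hP' p hp).1.ne_zero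
    have hcop : Nat.Coprime (q * pr P) p0 := by
      refine Nat.Coprime.mul_left ?_ ?_
      · exact (Nat.coprime_primes hq hp0.1).2 (fun h => hqP (h ▸ mem_insert_self _ _))
      · unfold pr
        refine Nat.Coprime.prod_left fun p hp => ?_
        exact (Nat.coprime_primes (hP' p hp).1 hp0.1).2 (fun h => h0 (h ▸ hp))
    rw [h1, Finset.prod_insert h0]
    have h2 : ∀ u ∈ range (q * pr P * p0), jacobiSym (u : ℤ) q ^ 2 *
        ∏ p ∈ insert p0 P, (jacobiSym (u : ℤ) p + jacobiSym (u : ℤ) p ^ 2) =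
        (jacobiSym (u : ℤ) q ^ 2 * ∏ p ∈ P, (jacobiSym (u : ℤ) p + jacobiSym (u : ℤ) p ^ 2)) *
          (jacobiSym (u : ℤ) p0 + jacobiSym (u : ℤ) p0 ^ 2) := by
      intro u _
      rw [Finset.prod_insert h0]
      ring
    have h3 : ∀ (u n N : ℕ), N ∣ n → jacobiSym ((u % n : ℕ) : ℤ) N = jacobiSym (u : ℤ) N := by
      intro u n N h
      rw [← jac_mod (u % n) N, Nat.mod_mod_of_dvd u h, jac_mod]
    rw [Finset.sum_congr rfl h2, sum_crt _ _ (q * pr P) p0
      (Nat.pos_of_ne_zero (mul_ne_zero hq.ne_zero hpr)) hp0.1.pos hcop,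
      ih hP' (fun h => hqP (mem_insert_of_mem h)), Finset.sum_add_distrib, sum_leg p0 hp0.1 hp0.2,
      sum_sq p0 hp0.1]
    · ring
    · intro u
      rw [h3 u _ q (dvd_mul_right _ _)]
      congr 1
      refine Finset.prod_congr rfl fun p hp => ?_
      rw [h3 u _ p (dvd_mul_of_dvd_right (dvd_pr hp) _)]
    · intro u
      rw [h3 u _ p0 dvd_rfl]

theorem half_sum (q : ℕ) (hq : q.Prime) (hq4 : q % 4 = 3) (P : Finset ℕ)
    (hP : ∀ p ∈ P, p.Prime ∧ p % 4 = 1) (hodd : (q * pr P) % 4 = 3) :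
    2 * ∑ u ∈ range ((q * pr P + 1) / 2), jacobiSym (u : ℤ) q ^ 2 *
        ∏ p ∈ P, (jacobiSym (u : ℤ) p + jacobiSym (u : ℤ) p ^ 2) =
      ((q : ℤ) - 1) * ∏ p ∈ P, ((p : ℤ) - 1) := by
  rw [← full_sum q hq P (fun p hp => ⟨(hP p hp).1, by have := (hP p hp).2; omega⟩)
    (fun h => by have := (hP q h).2; omega)]
  rw [sum_refl (fun u : ℕ => jacobiSym (u : ℤ) q ^ 2 *
        ∏ p ∈ P, (jacobiSym (u : ℤ) p + jacobiSym (u : ℤ) p ^ 2)) (q * pr P) (q * pr P / 2)
        (by omega) (by rw [jac_zero q hq.one_lt]; ring) 1]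
  · have : (q * pr P + 1) / 2 = q * pr P / 2 + 1 := by omega
    rw [this]
    norm_num
  · intro u h1 h2
    rw [jac_sub u _ q (dvd_mul_right _ _) h2.le, jac_neg3 _ _ hq4, neg_sq, one_mul]
    congr 1
    refine Finset.prod_congr rfl fun p hp => ?_
    rw [jac_sub u _ p (dvd_mul_of_dvd_right (dvd_pr hp) _) h2.le,
      jac_neg1 _ _ (hP p hp).2]

/-- the right hand side is divisible by `2 ^ (k + 1)` -/
theorem rhs_dvd (q : ℕ) (hq : q.Prime) (hq4 : q % 4 = 3) (P : Finset ℕ) (hne : P.Nonempty)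
    (hP : ∀ p ∈ P, p.Prime ∧ p % 8 = 1) (hodd : (q * pr P) % 4 = 3) :
    (2 : ℤ) ^ (P.card + 1) ∣ ∑ u ∈ range ((q * pr P + 1) / 2), jacobiSym (u : ℤ) q *
        ∏ p ∈ P, (jacobiSym (u : ℤ) p + jacobiSym (u : ℤ) p ^ 2) := by
  have h1 := half_sum q hq hq4 P (fun p hp => ⟨(hP p hp).1, by have := (hP p hp).2; omega⟩) hodd
  have h2 : (2 : ℤ) * 8 ^ P.card ∣ ((q : ℤ) - 1) * ∏ p ∈ P, ((p : ℤ) - 1) := by
    refine mul_dvd_mul (by omega) ?_
    rw [← Finset.prod_const]
    refine Finset.prod_dvd_prod_of_dvd _ _ fun p hp => ?_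
    have := (hP p hp).2
    omega
  have h3 : (2 : ℤ) ^ (P.card + 1) ∣ ∑ u ∈ range ((q * pr P + 1) / 2), jacobiSym (u : ℤ) q ^ 2 *
        ∏ p ∈ P, (jacobiSym (u : ℤ) p + jacobiSym (u : ℤ) p ^ 2) := by
    rw [← h1] at h2
    have h4 := Int.dvd_of_mul_dvd_mul_left (by norm_num) h2
    refine dvd_trans ?_ h4
    have h5 : (8 : ℤ) ^ P.card = 2 ^ (3 * P.card) := by rw [pow_mul]; norm_num
    rw [h5]
    have := hne.card_pos
    exact pow_dvd_pow _ (by omega)
  have h6 : (2 : ℤ) ^ (P.card + 1) ∣ ∑ u ∈ range ((q * pr P + 1) / 2),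
      (jacobiSym (u : ℤ) q ^ 2 * ∏ p ∈ P, (jacobiSym (u : ℤ) p + jacobiSym (u : ℤ) p ^ 2) -
       jacobiSym (u : ℤ) q * ∏ p ∈ P, (jacobiSym (u : ℤ) p + jacobiSym (u : ℤ) p ^ 2)) := by
    refine Finset.dvd_sum fun u _ => ?_
    rw [← sub_mul, pow_succ']
    refine mul_dvd_mul ?_ ?_
    · by_cases h : (q : ℤ) ∣ (u : ℤ)
      · have h7 := jac_sq (u : ℤ) q hq
        rw [if_pos h] at h7
        have h8 : jacobiSym (u : ℤ) q = 0 := by
          simpa using h7
        rw [h8]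
        norm_num
      · rcases jac_pm (u : ℤ) q hq h with h7 | h7 <;> rw [h7] <;> norm_num
    · rw [← Finset.prod_const]
      refine Finset.prod_dvd_prod_of_dvd _ _ fun p hp => ?_
      by_cases h : (p : ℤ) ∣ (u : ℤ)
      · have h7 := jac_sq (u : ℤ) p (hP p hp).1
        rw [if_pos h] at h7
        have h8 : jacobiSym (u : ℤ) p = 0 := by
          simpa using h7
        rw [h8]
        norm_num
      · rcases jac_pm (u : ℤ) p (hP p hp).1 h with h7 | h7 <;> rw [h7] <;> norm_num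
  rw [Finset.sum_sub_distrib] at h6
  have h7 := dvd_sub h3 h6
  rw [sub_sub_cancel] at h7
  exact h7

/-- the half sum of the prime `q` is odd -/
theorem base_odd (q : ℕ) (hq : q.Prime) (hq4 : q % 4 = 3) : ((H q : ℤ) : ZMod 2) = 1 := by
  have h1 := half_sum q hq hq4 ∅ (by simp) (by rw [pr_empty, mul_one]; exact hq4)
  simp only [Finset.prod_empty, mul_one, pr_empty] at h1
  have h2 : (2 : ℤ) ∣ (∑ u ∈ range ((q + 1) / 2), jacobiSym (u : ℤ) q ^ 2) - H q := by
    unfold H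
    rw [← Finset.sum_sub_distrib]
    refine Finset.dvd_sum fun u _ => ?_
    by_cases h : (q : ℤ) ∣ (u : ℤ)
    · have h7 := jac_sq (u : ℤ) q hq
      rw [if_pos h] at h7
      have h8 : jacobiSym (u : ℤ) q = 0 := by
        simpa using h7
      rw [h8]
      norm_num
    · rcases jac_pm (u : ℤ) q hq h with h7 | h7 <;> rw [h7] <;> norm_num
  have h3 : Odd (H q) := by
    rw [Int.odd_iff]
    omega
  obtain ⟨k, hk⟩ := h3
  rw [hk]
  push_cast
  have : (2 : ZMod 2) = 0 := rfl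
  rw [this]
  ring

/-! ### the symbols -/

theorem one_sub (q : ℕ) (hq : q.Prime) (hq2 : q % 4 = 3) (p : ℕ) (hp : p.Prime) (hp4 : p % 4 = 1)
    (S : Finset ℕ) (hS : ∀ s ∈ S, s.Prime ∧ s % 4 = 1) (hpS : p ∉ S) :
    ∃ t : ℤ, jacobiSym (p : ℤ) (q * pr S) = 1 - 2 * t ∧
      (t : ZMod 2) = ((eQ q p + ∑ s ∈ S, lres p s : ℤ) : ZMod 2) := by
  induction S using Finset.induction_on with
  | empty =>
    refine ⟨eQ q p, ?_, by simp⟩
    rw [pr_empty, mul_one, jacobiSym.quadratic_reciprocity_one_mod_four hp4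
      (Nat.odd_iff.2 (by omega))]
    unfold Pool.Agent.Y17.N.eQ
    have hne : ¬ (p : ℤ) ∣ (q : ℤ) := by
      rw [Int.natCast_dvd_natCast, Nat.prime_dvd_prime_iff_eq hp hq]
      rintro rfl
      omega
    rcases jac_pm (q : ℤ) p hp hne with h | h
    · rw [h, if_neg (by norm_num)]
      norm_num
    · rw [h, if_pos rfl]
      norm_num
  | insert s S hs ih =>
    obtain ⟨t, h1, h2⟩ := ih (fun x hx => hS x (mem_insert_of_mem hx))
      (fun h => hpS (mem_insert_of_mem h))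
    have hs' := hS s (mem_insert_self _ _)
    have hps : p ≠ s := fun h => hpS (h ▸ mem_insert_self _ _)
    have hrec : jacobiSym (p : ℤ) s = jacobiSym (s : ℤ) p :=
      jacobiSym.quadratic_reciprocity_one_mod_four hp4 (Nat.odd_iff.2 (by omega))
    have hl : jacobiSym (p : ℤ) s = 1 - 2 * lres p s := by
      have hne : ¬ (s : ℤ) ∣ (p : ℤ) := by
        rw [Int.natCast_dvd_natCast, Nat.prime_dvd_prime_iff_eq hs'.1 hp]
        exact fun h => hps h.symm
      unfold Pool.Agent.Z700.lres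
      rcases jac_pm (p : ℤ) s hs'.1 hne with h | h
      · rw [← hrec, h, if_neg (by norm_num)]
        norm_num
      · rw [← hrec, h, if_pos (Or.inl rfl)]
        norm_num
    have h0 : pr S ≠ 0 := pr_ne fun x hx => (hS x (mem_insert_of_mem hx)).1.ne_zero
    refine ⟨t + lres p s - 2 * (t * lres p s), ?_, ?_⟩
    · have h4 : q * pr (insert s S) = s * (q * pr S) := by
        rw [pr_insert hs]
        ring
      rw [h4, jacobiSym.mul_right' _ hs'.1.ne_zero (mul_ne_zero hq.ne_zero h0), h1, hl]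
      ring
    · rw [Finset.sum_insert hs]
      push_cast
      have : (2 : ZMod 2) = 0 := rfl
      rw [h2, this]
      push_cast
      ring

/-! ### the induction -/

theorem main (h2 : S_LEAF) (q : ℕ) (hq : Qr q) : ∀ P : Finset ℕ, (∀ p ∈ P, Sp p) →
    ∃ h : ℤ, H (q * pr P) = 2 ^ P.card * h ∧ (h : ZMod 2) = ((Yd lres (eQ q) P : ℤ) : ZMod 2) := by
  intro P
  induction P using Finset.strongInduction with
  | H P ih =>
  intro hP
  have hq4 : q % 4 = 3 := by have := hq.2.1; omega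
  have hP4 : ∀ p ∈ P, p.Prime ∧ p % 4 = 1 := fun p hp => ⟨(hP p hp).1, by
    have := (hP p hp).2.1; omega⟩
  rcases P.eq_empty_or_nonempty with rfl | hne
  · refine ⟨H q, ?_, ?_⟩
    · simp [pr_empty]
    · rw [Pool.Agent.Z179.yd_empty, base_odd q hq.1 hq4]
      norm_num
  have hodd : ∀ S ⊆ P, (q * pr S) % 4 = 3 := by
    intro S hS
    have h3 : pr S % 4 = 1 := by
      unfold pr
      rw [Finset.prod_nat_mod, Finset.prod_congr rfl (fun s hs => (hP4 s (hS hs)).2)]
      simp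
    rw [Nat.mul_mod, hq4, h3]
  have hrel := relation q hq.1.ne_zero P (fun p hp => (hP p hp).1) hodd
  obtain ⟨M, hM⟩ := rhs_dvd q hq.1 hq4 P hne (fun p hp => ⟨(hP p hp).1, (hP p hp).2.1⟩)
    (hodd P (Finset.Subset.refl _))
  rw [hM] at hrel
  -- choose the values
  have hch : ∀ S ∈ P.powerset.erase P, ∃ h : ℤ, H (q * pr S) * ∏ p ∈ P \ S,
      (1 - jacobiSym (p : ℤ) (q * pr S)) = 2 ^ P.card * h ∧ (h : ZMod 2) =
        ((Yd lres (eQ q) S * ∏ p ∈ P \ S, (eQ q p + ∑ s ∈ S, lres p s) : ℤ) : ZMod 2) := by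
    intro S hS
    rw [mem_erase, mem_powerset] at hS
    obtain ⟨h, h3, h4⟩ := ih S (lt_of_le_of_ne hS.2 hS.1) (fun p hp => hP p (hS.2 hp))
    have h5 : ∀ p ∈ P \ S, ∃ t : ℤ, 1 - jacobiSym (p : ℤ) (q * pr S) = 2 * t ∧
      (t : ZMod 2) = ((eQ q p + ∑ s ∈ S, lres p s : ℤ) : ZMod 2) := by
      intro p hp
      rw [mem_sdiff] at hp
      obtain ⟨t, h6, h7⟩ := one_sub q hq.1 hq4 p (hP4 p hp.1).1 (hP4 p hp.1).2 S
        (fun s hs => hP4 s (hS.2 hs)) hp.2
      exact ⟨t, by rw [h6]; ring, h7⟩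
    choose! t h6 h7 using h5
    refine ⟨h * ∏ p ∈ P \ S, t p, ?_, ?_⟩
    · rw [h3, Finset.prod_congr rfl h6, Finset.prod_mul_distrib, Finset.prod_const]
      have h8 : P.card = S.card + (P \ S).card := by
        rw [Finset.card_sdiff_of_subset hS.2]
        have := Finset.card_le_card hS.2
        omega
      rw [h8, pow_add]
      ring
    · push_cast at h7 ⊢
      rw [h4, Finset.prod_congr rfl h7]
  choose! g hg1 hg2 using hch
  have hPm : P ∈ P.powerset := mem_powerset_self P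
  have hl := h2 lres (eQ q) P hne
  rw [← Finset.sum_erase_add _ _ hPm] at hrel hl
  rw [Finset.sdiff_self, Finset.prod_empty, mul_one, Finset.sum_congr rfl hg1, ← Finset.mul_sum]
    at hrel
  rw [Finset.sdiff_self, Finset.prod_empty, mul_one] at hl
  refine ⟨2 * M - ∑ S ∈ P.powerset.erase P, g S, ?_, ?_⟩
  · rw [pow_succ] at hrel
    linear_combination hrel
  · obtain ⟨r, hr⟩ := hl
    have h3 : (Yd lres (eQ q) P : ℤ) = 2 * r - ∑ S ∈ P.powerset.erase P,
        Yd lres (eQ q) S * ∏ p ∈ P \ S, (eQ q p + ∑ s ∈ S, lres p s) := by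
      linear_combination hr
    rw [h3, Int.cast_sub, Int.cast_sub, Int.cast_sum, Int.cast_sum, Finset.sum_congr rfl hg2]
    push_cast
    have : (2 : ZMod 2) = 0 := rfl
    rw [this]
    ring

theorem t_RHQ (h1 : S_HALF) (h2 : S_LEAF) : S_RHQ := by
  intro q P hq hP
  obtain ⟨h, h3, h4⟩ := main h2 q hq P hP
  refine ⟨h, ?_, ?_⟩
  · have hsq : Squarefree (q * pr P) := by
      have hcop : Nat.Coprime q (pr P) := by
        unfold pr
        refine Nat.Coprime.prod_right fun p hp => ?_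
        refine (Nat.coprime_primes hq.1 (hP p hp).1).2 ?_
        rintro rfl
        have h5 := hq.2.1
        have h6 := (hP q hp).2.1
        omega
      rw [Nat.squarefree_mul hcop]
      refine ⟨hq.1.squarefree, ?_⟩
      clear h3 h4 hcop
      induction P using Finset.induction_on with
      | empty => rw [pr_empty]; exact squarefree_one
      | insert s S hs ih =>
        rw [pr_insert hs, Nat.squarefree_mul]
        · exact ⟨(hP s (mem_insert_self _ _)).1.squarefree,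
            ih (fun p hp => hP p (mem_insert_of_mem hp))⟩
        · unfold pr
          refine Nat.Coprime.prod_right fun p hp => ?_
          refine (Nat.coprime_primes (hP s (mem_insert_self _ _)).1
            (hP p (mem_insert_of_mem hp)).1).2 ?_
          rintro rfl
          exact hs hp
    have h8 : (q * pr P) % 8 = 3 := by
      have h9 : pr P % 8 = 1 := by
        unfold pr
        rw [Finset.prod_nat_mod, Finset.prod_congr rfl (fun s hs => (hP s hs).2.1)]
        simp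
      rw [Nat.mul_mod, hq.2.1, h9]
    rw [h1 _ hsq h8]
    have h9 : (range (q * pr P)).filter (fun u => 2 * u < q * pr P) =
        range ((q * pr P + 1) / 2) := by
      ext u
      rw [mem_filter, mem_range, mem_range]
      omega
    rw [h9]
    unfold H at h3
    rw [h3]
    ring
  · have key : ∀ a : ℤ, Odd a ↔ (a : ZMod 2) ≠ 0 := fun a => by
      rw [← Int.not_even_iff_odd, Ne, ZMod.intCast_zmod_eq_zero_iff_dvd, even_iff_two_dvd]
      rfl
    rw [key, key, h4]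

end Pool.Agent.Y434.N
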